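import Pool.Agent.H7.GU.Stmts

/-!
Row GGP of the board `gu8`: two good vertices which are exceptional for each other.
-/

set_option autoImplicit false

open Finset

namespace Pool.GU7

open Pool.Agent.H23.KT Pool.Agent.H46.KW Pool.KQ Pool.GT7

theorem GGP_nb_non {V : Type} (G : SimpleGraph V) (X : Finset V) (u : V) :
    (nb G X u).card + (non G X u).card = X.card := by
  classical
  unfold nb non
  exact Finset.card_filter_add_card_filter_not _

/-- A vertex of a part has almost all possible neighbours in the neighbourhood. -/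
theorem GGP_deg {V : Type} [Fintype V] [DecidableEq V] {G : SimpleGraph V} {p a : ℕ} {e C : ℝ}
    {v : V} {P : Fin (p + 3) → Finset V} {U : Finset V}
    (hS : Str G p a e C (nb G univ v) P U) {x : V} {i : Fin (p + 3)} (hx : x ∈ P i) :
    ((p : ℝ) + 2) * ((1 - e - e1 p) * a) ≤ ((nb G (nb G univ v) x).card : ℝ) := by
  have hsub : (univ.erase i).biUnion (fun l => nb G (P l) x) ⊆ nb G (nb G univ v) x := by
    intro y hy
    rw [mem_biUnion] at hy
    obtain ⟨l, -, hy⟩ := hy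
    rw [mem_nb] at hy ⊢
    exact ⟨(hS.cov y).2 (Or.inr ⟨l, hy.1⟩), hy.2⟩
  have hcard : ((univ.erase i).biUnion (fun l => nb G (P l) x)).card =
      ∑ l ∈ univ.erase i, (nb G (P l) x).card := by
    apply card_biUnion
    intro l _ k _ hlk
    exact disjoint_of_subset_left (nb_subset G _ _)
      (disjoint_of_subset_right (nb_subset G _ _) (hS.par.dis l k hlk))
  have h1 : (∑ l ∈ univ.erase i, ((nb G (P l) x).card : ℝ)) ≤
      ((nb G (nb G univ v) x).card : ℝ) := by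
    have := card_le_card hsub
    rw [hcard] at this
    exact_mod_cast this
  refine le_trans ?_ h1
  have h2 : ∀ l ∈ univ.erase i, (1 - e - e1 p) * (a : ℝ) ≤ ((nb G (P l) x).card : ℝ) := by
    intro l hl
    have hli : l ≠ i := ne_of_mem_erase hl
    have h3 : ((nb G (P l) x).card : ℝ) + ((non G (P l) x).card : ℝ) = ((P l).card : ℝ) := by
      exact_mod_cast GGP_nb_non G (P l) x
    have h4 := hS.mis i x hx l hli
    have h5 := hS.lo l
    linarith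
  have h3 : (univ.erase i : Finset (Fin (p + 3))).card = p + 2 := by
    rw [card_erase_of_mem (mem_univ i), card_univ, Fintype.card_fin]
    omega
  calc ((p : ℝ) + 2) * ((1 - e - e1 p) * a)
      = ∑ _l ∈ (univ.erase i : Finset (Fin (p + 3))), (1 - e - e1 p) * (a : ℝ) := by
        rw [sum_const, h3, nsmul_eq_mul]
        push_cast
        ring
    _ ≤ _ := sum_le_sum h2

theorem GGP_pow (a n : ℕ) (ha : 1 ≤ a) : (a + 1) ^ n * a + a ^ n ≤ a ^ n * (a + 2 ^ n) := by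
  induction n with
  | zero => simp
  | succ n ih =>
    obtain ⟨b, rfl⟩ : ∃ b, a = b + 1 := ⟨a - 1, by omega⟩
    obtain ⟨m, hm⟩ : ∃ m, 2 ^ n = m + 1 := ⟨2 ^ n - 1, by have := Nat.one_le_two_pow (n := n); omega⟩
    rw [pow_succ, pow_succ (b + 1) n, pow_succ 2 n, hm]
    rw [hm] at ih
    have h1 : (b + 1 + 1) * ((b + 1 + 1) ^ n * (b + 1) + (b + 1) ^ n) ≤
        (b + 1 + 1) * ((b + 1) ^ n * (b + 1 + (m + 1))) := Nat.mul_le_mul_left _ ih
    have h2 : (b + 1) ^ n * ((b + 1 + 1) * (b + 1 + (m + 1)) + (b + 1)) ≤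
        (b + 1) ^ n * ((b + 1) * (b + 1 + (m + 1) * 2) + (b + 1 + 1)) := by
      apply Nat.mul_le_mul_left
      nlinarith [Nat.zero_le (b * m)]
    nlinarith [h1, h2]

theorem GGP_num {c : ℝ} (hc0 : 0 < c) (hc1 : c < 1) (n C₁ a : ℕ) (ha : 1 ≤ a)
    (hM : ((2 : ℝ) ^ n + C₁ + 2 ^ n * C₁) ≤ c * a) :
    (1 - c) * ((a : ℝ) + 1) ^ n * ((a : ℝ) + C₁) ≤ (a : ℝ) ^ (n + 1) := by
  have ha0 : (1 : ℝ) ≤ a := by exact_mod_cast ha
  have h1 : ((a : ℝ) + 1) ^ n * a ≤ (a : ℝ) ^ n * (a + 2 ^ n) := by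
    have := GGP_pow a n ha
    have h2 : ((a : ℝ) + 1) ^ n * a + (a : ℝ) ^ n ≤ (a : ℝ) ^ n * (a + 2 ^ n) := by
      exact_mod_cast this
    have h3 : (0 : ℝ) ≤ (a : ℝ) ^ n := by positivity
    linarith
  have hC : (0 : ℝ) ≤ C₁ := Nat.cast_nonneg _
  have hK : (0 : ℝ) ≤ 2 ^ n := by positivity
  have h4 : ((a : ℝ) + 2 ^ n) * ((a : ℝ) + C₁) ≤ (1 + c) * a ^ 2 := by
    have e1 : ((a : ℝ) + 2 ^ n) * ((a : ℝ) + C₁) = a ^ 2 + (2 ^ n + C₁) * a + 2 ^ n * C₁ := by ring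
    have e2 : (2 : ℝ) ^ n * C₁ ≤ 2 ^ n * C₁ * a :=
      le_mul_of_one_le_right (mul_nonneg hK hC) ha0
    have e3 : ((2 : ℝ) ^ n + C₁ + 2 ^ n * C₁) * a ≤ c * a * a :=
      mul_le_mul_of_nonneg_right hM (by linarith)
    rw [e1]
    nlinarith
  have h5 : (1 - c) * (((a : ℝ) + 2 ^ n) * ((a : ℝ) + C₁)) ≤ a ^ 2 := by
    calc (1 - c) * (((a : ℝ) + 2 ^ n) * ((a : ℝ) + C₁)) ≤ (1 - c) * ((1 + c) * a ^ 2) :=
          mul_le_mul_of_nonneg_left h4 (by linarith)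
      _ = a ^ 2 - c ^ 2 * a ^ 2 := by ring
      _ ≤ a ^ 2 := by
        have : 0 ≤ c ^ 2 * (a : ℝ) ^ 2 := by positivity
        linarith
  have h6 : (1 - c) * ((a : ℝ) + 1) ^ n * ((a : ℝ) + C₁) * a ≤ (a : ℝ) ^ (n + 1) * a := by
    calc (1 - c) * ((a : ℝ) + 1) ^ n * ((a : ℝ) + C₁) * a
        = ((1 - c) * ((a : ℝ) + C₁)) * (((a : ℝ) + 1) ^ n * a) := by ring
      _ ≤ ((1 - c) * ((a : ℝ) + C₁)) * ((a : ℝ) ^ n * (a + 2 ^ n)) :=
          mul_le_mul_of_nonneg_left h1 (mul_nonneg (by linarith) (by linarith))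
      _ = (a : ℝ) ^ n * ((1 - c) * (((a : ℝ) + 2 ^ n) * ((a : ℝ) + C₁))) := by ring
      _ ≤ (a : ℝ) ^ n * a ^ 2 := mul_le_mul_of_nonneg_left h5 (by positivity)
      _ = _ := by ring
  exact le_of_mul_le_mul_right h6 (by linarith)

/-- The core: `co G v z` has at most `a` vertices. -/
theorem GGP_core {V : Type} [Fintype V] [DecidableEq V] {G : SimpleGraph V} {p r a : ℕ} {e C : ℝ}
    (hdeg : ∀ v, (nb G univ v).card ≤ (p + 3) * a + r) (ha : 1 ≤ a) {v z : V}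
    {P P' : Fin (p + 3) → Finset V} {U U' : Finset V}
    (hS : Str G p a e C (nb G univ v) P U) (hS' : Str G p a e C (nb G univ z) P' U')
    (hz : z ∈ U) (hco : ((Pool.KR.co G v z).card : ℝ) ≤ a)
    (hn1 : ((p : ℝ) + 4) * a + r < 2 * (((p : ℝ) + 2) * ((1 - e - e1 p) * a)))
    (hn2 : (a : ℝ) < ((p : ℝ) + 2) * ((1 - e - e1 p) * a)) :
    Pool.KR.co G v z ⊆ U ∪ U' ∧ v ∈ U' := by
  have hvz : G.Adj v z := ((mem_nb G).1 ((hS.cov z).2 (Or.inl hz))).2
  constructor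
  · intro x hx
    have hx' := hx
    unfold Pool.KR.co at hx'
    rw [mem_nb, mem_nb] at hx'
    obtain ⟨⟨-, hvx⟩, hzx⟩ := hx'
    rw [mem_union]
    rcases (hS.cov x).1 ((mem_nb G).2 ⟨mem_univ _, hvx⟩) with h | ⟨i, hi⟩
    · exact Or.inl h
    rcases (hS'.cov x).1 ((mem_nb G).2 ⟨mem_univ _, hzx⟩) with h | ⟨k, hk⟩
    · exact Or.inr h
    exfalso
    have h1 := GGP_deg hS hi
    have h2 := GGP_deg hS' hk
    have h3 : nb G (nb G univ v) x ∪ nb G (nb G univ z) x ⊆ nb G univ x := by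
      intro y hy
      rw [mem_nb]
      rcases mem_union.1 hy with hy | hy
      · exact ⟨mem_univ _, ((mem_nb G).1 hy).2⟩
      · exact ⟨mem_univ _, ((mem_nb G).1 hy).2⟩
    have h4 : nb G (nb G univ v) x ∩ nb G (nb G univ z) x ⊆ Pool.KR.co G v z := by
      intro y hy
      have g1 := (mem_nb G).1 (mem_inter.1 hy).1
      have g2 := (mem_nb G).1 (mem_inter.1 hy).2
      have g3 := (mem_nb G).1 g1.1
      have g4 := (mem_nb G).1 g2.1
      unfold Pool.KR.co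
      rw [mem_nb, mem_nb]
      exact ⟨⟨mem_univ _, g3.2⟩, g4.2⟩
    have h5 := card_union_add_card_inter (nb G (nb G univ v) x) (nb G (nb G univ z) x)
    have h6 := (card_le_card h3).trans (hdeg x)
    have h7 := card_le_card h4
    have h8 : ((nb G (nb G univ v) x).card : ℝ) + ((nb G (nb G univ z) x).card : ℝ) ≤
        (((p : ℝ) + 3) * a + r) + ((Pool.KR.co G v z).card : ℝ) := by
      have : (nb G (nb G univ v) x).card + (nb G (nb G univ z) x).card ≤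
          ((p + 3) * a + r) + (Pool.KR.co G v z).card := by omega
      exact_mod_cast this
    linarith
  · rcases (hS'.cov v).1 ((mem_nb G).2 ⟨mem_univ _, hvz.symm⟩) with h | ⟨k, hk⟩
    · exact h
    exfalso
    have h1 := GGP_deg hS' hk
    have h2 : nb G (nb G univ z) v ⊆ Pool.KR.co G v z := by
      intro y hy
      rw [mem_nb, mem_nb] at hy
      unfold Pool.KR.co
      rw [mem_nb, mem_nb]
      exact ⟨⟨mem_univ _, hy.2⟩, hy.1.2⟩
    have h3 : ((nb G (nb G univ z) v).card : ℝ) ≤ ((Pool.KR.co G v z).card : ℝ) := by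
      exact_mod_cast card_le_card h2
    linarith

/-- The bound of `card (co G v z)` from STG. -/
theorem GGP_stg (hSTG : Pool.KR.STGStmt) (p r : ℕ) (hr : r ≤ p + 2) :
    ∃ e₀ : ℝ, 0 < e₀ ∧ e₀ ≤ e1 p ∧ ∀ (C : ℝ) (C₁ : ℕ), ∃ a₀ : ℕ, 1 ≤ a₀ ∧
    ∀ a ≥ a₀, ∀ {V : Type} [Fintype V] [DecidableEq V] (G : SimpleGraph V), G8 G p r a →
    ∀ (e : ℝ), 0 ≤ e → e ≤ e₀ → ∀ (v z : V) (P : Fin (p + 3) → Finset V) (U : Finset V),
    Str G p a e C (nb G univ v) P U → z ∈ U →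
    a ^ (p + 4) ≤ (a + C₁) * kc G (nb G univ z) (p + 3) →
    ((Pool.KR.co G v z).card : ℝ) ≤ a := by
  obtain ⟨c, hc0, hc1, e₀, he0, he1, H⟩ := hSTG p 1 one_pos
  refine ⟨e₀, he0, he1, ?_⟩
  intro C C₁
  obtain ⟨aS, hS⟩ := H C
  obtain ⟨aM, haM⟩ := exists_nat_ge (((2 : ℝ) ^ (p + 3) + C₁ + 2 ^ (p + 3) * C₁) / c)
  refine ⟨max (max aS aM) 1, le_max_right _ _, ?_⟩
  intro a ha V _ _ G hG e hee hee0 v z P U hStr hz hk
  have ha1 : 1 ≤ a := le_trans (le_max_right _ _) ha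
  have haS : aS ≤ a := le_trans (le_trans (le_max_left _ _) (le_max_left _ _)) ha
  have haM' : aM ≤ a := le_trans (le_trans (le_max_right _ _) (le_max_left _ _)) ha
  have hM : ((2 : ℝ) ^ (p + 3) + C₁ + 2 ^ (p + 3) * C₁) ≤ c * a := by
    have h1 : (aM : ℝ) ≤ a := by exact_mod_cast haM'
    have h2 := haM.trans h1
    rw [div_le_iff₀ hc0] at h2
    linarith
  have hnum := GGP_num hc0 hc1 (p + 3) C₁ a ha1 hM
  have hGG : Pool.KR.GG G p a := ⟨hG.cb, fun u => (hG.deg u).trans (by omega)⟩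
  have hbal : (bal (p + 3) ((p + 3) * a + (p + 2)) : ℝ) ≤ ((a : ℝ) + 1) ^ (p + 3) := by
    have h1 : bal (p + 3) ((p + 3) * a + (p + 2)) ≤ bal (p + 3) ((p + 3) * (a + 1)) :=
      bal_mono (by omega) (by
        have : (p + 3) * (a + 1) = (p + 3) * a + (p + 3) := by ring
        omega)
    rw [bal_mul_self (by omega)] at h1
    exact_mod_cast h1
  have hkc : (1 - c) * (bal (p + 3) ((p + 3) * a + (p + 2)) : ℝ) ≤
      kc G (nb G univ z) (p + 3) := by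
    have ha0 : (0 : ℝ) < (a : ℝ) + C₁ := by
      have : (1 : ℝ) ≤ a := by exact_mod_cast ha1
      have h2 : (0 : ℝ) ≤ C₁ := Nat.cast_nonneg _
      linarith
    have h1 : (a : ℝ) ^ (p + 4) ≤ ((a : ℝ) + C₁) * (kc G (nb G univ z) (p + 3) : ℝ) := by
      exact_mod_cast hk
    have h2 : (1 - c) * (bal (p + 3) ((p + 3) * a + (p + 2)) : ℝ) * ((a : ℝ) + C₁) ≤
        kc G (nb G univ z) (p + 3) * ((a : ℝ) + C₁) := by
      calc (1 - c) * (bal (p + 3) ((p + 3) * a + (p + 2)) : ℝ) * ((a : ℝ) + C₁)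
          ≤ (1 - c) * ((a : ℝ) + 1) ^ (p + 3) * ((a : ℝ) + C₁) :=
            mul_le_mul_of_nonneg_right (mul_le_mul_of_nonneg_left hbal (by linarith)) ha0.le
        _ ≤ (a : ℝ) ^ (p + 3 + 1) := hnum
        _ ≤ ((a : ℝ) + C₁) * (kc G (nb G univ z) (p + 3) : ℝ) := h1
        _ = _ := by ring
    exact le_of_mul_le_mul_right h2 ha0
  have := hS a haS G hGG v e P U hStr hee hee0 z hz hkc
  rwa [one_mul] at this

theorem GGP_thm (hSTG : Pool.KR.STGStmt) : GGPStmt := by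
  intro p w r hP
  obtain ⟨wp, r2, rb⟩ := hP
  obtain ⟨e₀, he0, he1, H⟩ := GGP_stg hSTG p r (by omega)
  refine ⟨e₀, he0, he1, ?_⟩
  intro C C₁
  obtain ⟨a₀, ha₀, H2⟩ := H C C₁
  refine ⟨a₀, ?_⟩
  intro a ha V _ _ G hG e hee hee0 v z P P' U U' hS hS' hz hk
  have hco := H2 a ha G hG e hee hee0 v z P U hS hz hk
  have ha1 : 1 ≤ a := ha₀.trans ha
  have ha1' : (1 : ℝ) ≤ a := by exact_mod_cast ha1
  have hp5 : (5 : ℝ) ≤ p := by
    have : 5 ≤ p := by omega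
    exact_mod_cast this
  have hr4 : 4 * (r : ℝ) ≤ p + 3 := by exact_mod_cast rb
  have hE : ((p : ℝ) + 2) * e1 p ≤ 1 / 1024 := by
    unfold e1
    rw [mul_one_div, div_le_div_iff₀ (by positivity) (by norm_num)]
    have h8 : (8 : ℝ) ≤ (p : ℝ) + 3 := by linarith
    have h64 : (64 : ℝ) ≤ ((p : ℝ) + 3) ^ 2 := by nlinarith
    have : ((p : ℝ) + 3) ^ 3 = ((p : ℝ) + 3) * ((p : ℝ) + 3) ^ 2 := by ring
    rw [this]
    nlinarith
  have hlow : ((p : ℝ) + 2 - 1 / 512) * a ≤ ((p : ℝ) + 2) * ((1 - e - e1 p) * a) := by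
    have h1 : ((p : ℝ) + 2) * e ≤ 1 / 1024 :=
      (mul_le_mul_of_nonneg_left (hee0.trans he1) (by linarith)).trans hE
    have h2 : (p : ℝ) + 2 - 1 / 512 ≤ ((p : ℝ) + 2) * (1 - e - e1 p) := by linarith
    calc ((p : ℝ) + 2 - 1 / 512) * a ≤ ((p : ℝ) + 2) * (1 - e - e1 p) * a :=
          mul_le_mul_of_nonneg_right h2 (by linarith)
      _ = _ := by ring
  refine GGP_core hG.deg ha1 hS hS' hz hco ?_ ?_
  · have h1 : (r : ℝ) ≤ ((p : ℝ) + 3) / 4 * a := by nlinarith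
    have h2 : 0 < ((p : ℝ) - 1 / 256 - (p + 3) / 4) * a := mul_pos (by linarith) (by linarith)
    nlinarith
  · have h2 : 0 < ((p : ℝ) + 1 - 1 / 512) * a := mul_pos (by linarith) (by linarith)
    nlinarith

end Pool.GU7
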