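import Pool.Agent.H7.GU.Stmts

/-!
Row CCK0 of the board `gu` (copy of the row CCK of helper55) (MP_fd41b2_co)
-/

set_option autoImplicit false

open Finset

namespace Pool.GU7

open Pool.Agent.H23.KT Pool.Agent.H46.KW Pool.KQ Pool.GT7

private lemma CCK0_mem_un {V : Type} [DecidableEq V] {b : ℕ} {P : Fin b → Finset V} {x : V} :
    x ∈ un P ↔ ∃ i, x ∈ P i := by
  unfold un
  rw [mem_biUnion]
  constructor
  · rintro ⟨i, -, h⟩
    exact ⟨i, h⟩
  · rintro ⟨i, h⟩
    exact ⟨i, mem_univ i, h⟩

/-- A clique meets every part at most once. -/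
private lemma CCK0_one {V : Type} [DecidableEq V] {G : SimpleGraph V} {b : ℕ}
    {P : Fin b → Finset V} (hP : Par G P) {S : Finset V} (hS : G.IsClique (S : Set V)) (i : Fin b) :
    (S ∩ P i).card ≤ 1 := by
  rw [card_le_one]
  intro x hx y hy
  rw [mem_inter] at hx hy
  by_contra hne
  exact hP.ind i x hx.2 y hy.2 (hS (mem_coe.2 hx.1) (mem_coe.2 hy.1) hne)

/-- A clique with `b` vertices meets every one of the `b` parts. -/
private lemma CCK0_surj {V : Type} [DecidableEq V] {G : SimpleGraph V} {b : ℕ}
    {P : Fin b → Finset V} (hP : Par G P) {K : Finset V} (hK : K ∈ clq G (un P) b) (i : Fin b) :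
    ∃ y ∈ K, y ∈ P i := by
  rw [mem_clq] at hK
  obtain ⟨h1, h2, h3⟩ := hK
  have hf : ∀ y, ∃ k : Fin b, y ∈ K → y ∈ P k := by
    intro y
    by_cases hy : y ∈ K
    · obtain ⟨k, hk⟩ := CCK0_mem_un.1 (h1 hy)
      exact ⟨k, fun _ => hk⟩
    · exact ⟨i, fun h => absurd h hy⟩
  choose f hf using hf
  have hinj : Set.InjOn f (K : Set V) := by
    intro x hx y hy hxy
    by_contra hne
    have ha := hf x (mem_coe.1 hx)
    have hb := hf y (mem_coe.1 hy)
    rw [← hxy] at hb
    exact hP.ind _ x ha y hb (h3 hx hy hne)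
  have hc : (K.image f).card = (univ : Finset (Fin b)).card := by
    rw [card_image_of_injOn hinj, h2, card_univ, Fintype.card_fin]
  have hu : K.image f = univ := eq_of_subset_of_card_le (subset_univ _) hc.ge
  have hi : i ∈ K.image f := by rw [hu]; exact mem_univ i
  rw [mem_image] at hi
  obtain ⟨y, hy, hyi⟩ := hi
  exact ⟨y, hy, hyi ▸ hf y hy⟩

/-- A set with fewer vertices than parts misses a part. -/
private lemma CCK0_miss {V : Type} [DecidableEq V] {G : SimpleGraph V} {b : ℕ}
    {P : Fin b → Finset V} (hP : Par G P) {S : Finset V} (h1 : S ⊆ un P) (h2 : S.card < b) :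
    ∃ i, ∀ y ∈ S, y ∉ P i := by
  have hf : ∀ y, ∃ k : Fin b, y ∈ S → y ∈ P k := by
    intro y
    by_cases hy : y ∈ S
    · obtain ⟨k, hk⟩ := CCK0_mem_un.1 (h1 hy)
      exact ⟨k, fun _ => hk⟩
    · exact ⟨⟨0, by omega⟩, fun h => absurd h hy⟩
  choose f hf using hf
  have hc : (S.image f).card < (univ : Finset (Fin b)).card := by
    refine lt_of_le_of_lt card_image_le ?_
    rw [card_univ, Fintype.card_fin]
    exact h2
  obtain ⟨i, -, hi⟩ := exists_mem_notMem_of_card_lt_card hc
  refine ⟨i, fun y hy hyi => hi ?_⟩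
  rw [mem_image]
  refine ⟨y, hy, ?_⟩
  by_contra hne
  exact (disjoint_left.1 (hP.dis _ _ hne)) (hf y hy) hyi

theorem CCK0_thm (hGRD : GRDStmt) (hGCO : GCO0Stmt) : CCK0Stmt := by
  intro V _ G p w r a e C W P U hprm hS he0 he hCB z hz
  classical
  have hzW : z ∈ W := (hS.cov z).2 (Or.inl hz)
  have hXW : un P ⊆ W := by
    intro x hx
    exact (hS.cov x).2 (Or.inr (CCK0_mem_un.1 hx))
  -- (0)
  have h0 : ∀ L ∈ clq G (un P) (p + 3), (nb G L z).card ≤ p + 2 := by
    intro L hL
    rw [mem_clq] at hL
    obtain ⟨h1, h2, h3⟩ := hL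
    by_contra hlt
    have heq : nb G L z = L := eq_of_subset_of_card_le (nb_subset G L z) (by omega)
    have hzL : z ∉ L := by
      intro h
      rw [← heq] at h
      exact G.loopless.irrefl z ((mem_nb G).1 h).2
    have hcl : G.IsClique ((insert z L : Finset V) : Set V) := by
      rw [coe_insert, SimpleGraph.isClique_insert]
      refine ⟨h3, fun y hy _ => ?_⟩
      rw [mem_coe, ← heq] at hy
      exact ((mem_nb G).1 hy).2
    have := hCB (insert z L) (insert_subset hzW (h1.trans hXW)) hcl
    rw [card_insert_of_notMem hzL, h2] at this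
    omega
  -- the sets
  set F : Finset (Finset V) := (clq G (un P) (p + 3)).filter (fun K => (nb G K z).card = p + 2)
    with hF
  set T : Finset (Finset V) := clq G (nb G (un P) z) (p + 2) with hT
  have hmaps : ∀ K ∈ F, nb G K z ∈ T := by
    intro K hK
    rw [hF, mem_filter, mem_clq] at hK
    rw [hT, mem_clq]
    refine ⟨nb_mono hK.1.1 z, hK.2, ?_⟩
    exact hK.1.2.2.subset (by
      intro y hy
      exact mem_coe.2 (nb_subset G K z (mem_coe.1 hy)))
  have hcard : F.card = ∑ S ∈ T, (F.filter (fun K => nb G K z = S)).card :=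
    card_eq_sum_card_fiberwise (fun K hK => hmaps K hK)
  have hccF : cc G p (un P) (p + 2) z = F.card := by
    unfold cc
    rw [hF]
  have hTX : ∀ S ∈ T, S ∈ clq G (un P) (p + 2) := by
    intro S hST
    rw [hT, mem_clq] at hST
    rw [mem_clq]
    exact ⟨hST.1.trans (nb_subset G _ z), hST.2⟩
  refine ⟨h0, ?_, ?_, ?_⟩
  · -- upper bound
    have hfib : ∀ S ∈ T, (((F.filter (fun K => nb G K z = S)).card : ℕ) : ℝ) ≤ (1 + e) * a := by
      intro S hST
      have hSX := hTX S hST
      rw [mem_clq] at hSX
      obtain ⟨i, hi⟩ := CCK0_miss hS.par hSX.1 (by rw [hSX.2.1]; omega)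
      have hsub : F.filter (fun K => nb G K z = S) ⊆ (P i).image (fun x => insert x S) := by
        intro K hK
        rw [mem_filter, hF, mem_filter] at hK
        obtain ⟨⟨hKc, hKn⟩, hKS⟩ := hK
        obtain ⟨y, hyK, hyi⟩ := CCK0_surj hS.par hKc i
        rw [mem_image]
        refine ⟨y, hyi, ?_⟩
        have hyS : y ∉ S := fun h => hi y h hyi
        refine eq_of_subset_of_card_le ?_ ?_
        · refine insert_subset hyK ?_
          rw [← hKS]
          exact nb_subset G K z
        · rw [card_insert_of_notMem hyS, hSX.2.1]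
          rw [mem_clq] at hKc
          rw [hKc.2.1]
      have h1 : (F.filter (fun K => nb G K z = S)).card ≤ (P i).card :=
        (card_le_card hsub).trans card_image_le
      have h2 : (((F.filter (fun K => nb G K z = S)).card : ℕ) : ℝ) ≤ ((P i).card : ℝ) := by
        exact_mod_cast h1
      exact h2.trans (hS.hi i)
    rw [hccF, hcard, kc_eq, ← hT, Nat.cast_sum]
    calc ∑ S ∈ T, (((F.filter (fun K => nb G K z = S)).card : ℕ) : ℝ)
        ≤ ∑ _S ∈ T, (1 + e) * (a : ℝ) := sum_le_sum hfib
      _ = (1 + e) * a * (T.card : ℝ) := by rw [sum_const, nsmul_eq_mul, mul_comm]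
  · -- lower bound
    have hfib : ∀ S ∈ T, (a : ℝ) / 2 ≤ (((F.filter (fun K => nb G K z = S)).card : ℕ) : ℝ) := by
      intro S hST
      have hSX := hTX S hST
      have hSX' := hSX
      rw [mem_clq] at hSX'
      have hg := hGRD G p a e P he0 he hS.par hS.lo hS.mis S (p + 2) 1 hSX'.1
        (fun i => CCK0_one hS.par hSX'.2.2 i) hSX'.2.1 (by omega)
      have hsub : (cn G (un P) S).image (fun x => insert x S) ⊆
          F.filter (fun K => nb G K z = S) := by
        intro K hK
        rw [mem_image] at hK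
        obtain ⟨x, hx, rfl⟩ := hK
        have hKc : insert x S ∈ clq G (un P) (p + 3) := clq_insert hSX hx
        have hxS : x ∉ S := by
          intro h
          exact G.loopless.irrefl x ((mem_cn.1 hx).2 x h)
        have hSz : S ⊆ nb G (insert x S) z := by
          intro y hy
          rw [mem_nb]
          refine ⟨mem_insert_of_mem hy, ?_⟩
          rw [hT, mem_clq] at hST
          exact ((mem_nb G).1 (hST.1 hy)).2
        have hle := h0 _ hKc
        have heq : nb G (insert x S) z = S := by
          refine (eq_of_subset_of_card_le hSz ?_).symm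
          rw [hSX'.2.1]
          exact hle
        rw [mem_filter, hF, mem_filter]
        exact ⟨⟨hKc, by rw [heq, hSX'.2.1]⟩, heq⟩
      have hinj : Set.InjOn (fun x => insert x S) ((cn G (un P) S : Finset V) : Set V) := by
        intro x hx y hy hxy
        have hxS : x ∉ S := by
          intro h
          exact G.loopless.irrefl x ((mem_cn.1 (mem_coe.1 hx)).2 x h)
        have h1 : x ∈ insert y S := by
          have hxy' : insert x S = insert y S := hxy
          rw [← hxy']
          exact mem_insert_self x S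
        rcases mem_insert.1 h1 with h | h
        · exact h
        · exact absurd h hxS
      have h1 : (cn G (un P) S).card ≤ (F.filter (fun K => nb G K z = S)).card := by
        rw [← card_image_of_injOn hinj]
        exact card_le_card hsub
      have h2 : kc G (cn G (un P) S) 1 ≤ (F.filter (fun K => nb G K z = S)).card :=
        (kc_one _).trans h1
      have h3 : (kc G (cn G (un P) S) 1 : ℝ) ≤
          (((F.filter (fun K => nb G K z = S)).card : ℕ) : ℝ) := by exact_mod_cast h2
      refine le_trans ?_ h3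
      refine le_trans ?_ hg
      have h4 : p + 3 - (p + 2) = 1 := by omega
      rw [h4, Nat.choose_self, pow_one, Nat.cast_one, one_mul]
      have h5 : (1 : ℝ) / (32 * ((p : ℝ) + 3)) ≤ 1 / 2 := by
        apply one_div_le_one_div_of_le (by norm_num)
        have : (0 : ℝ) ≤ p := Nat.cast_nonneg p
        nlinarith
      have h6 : (0 : ℝ) ≤ a := Nat.cast_nonneg a
      nlinarith
    rw [hccF, hcard, kc_eq, ← hT, Nat.cast_sum]
    calc (a : ℝ) / 2 * (T.card : ℝ) = ∑ _S ∈ T, (a : ℝ) / 2 := by
          rw [sum_const, nsmul_eq_mul, mul_comm]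
      _ ≤ ∑ S ∈ T, (((F.filter (fun K => nb G K z = S)).card : ℕ) : ℝ) := sum_le_sum hfib
  · -- the weights
    obtain ⟨g1, g2, g3, -, -⟩ := hGCO p w r hprm
    unfold cc TZ
    rw [card_filter, card_filter, Nat.cast_sum, Nat.cast_sum, mul_sum, ← sum_add_distrib]
    refine sum_le_sum (fun L hL => ?_)
    have hB := h0 L hL
    by_cases c2 : (nb G L z).card = p + 2
    · rw [if_pos c2, if_neg (by omega), c2, g2]
      norm_num
    · by_cases c1 : (nb G L z).card = p + 1
      · rw [if_neg c2, if_pos c1, c1]
        norm_num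
        linarith
      · rw [if_neg c2, if_neg c1]
        have := (g1 _ hB).1
        norm_num
        exact this

end Pool.GU7
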